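import Pool.Agent.T9h36.SK.Spec

set_option autoImplicit false

namespace Pool.Agent.T9h18.SK

open Finset
open Pool.Agent.T9h34 (Circuit)
open Pool.Agent.T9h16 (Leaf)
open Pool.Agent.T9h20 (FCircuit)
open Pool.Agent.T9h20.SC
open Pool.Agent.T9h36.SK

theorem mem_glue {k s m : ℕ} (e : Fin (k * (s + m)) ≃ Fin (k * s) ⊕ Fin (k * m))
    (A : Finset (Fin (k * s))) (B : Finset (Fin (k * m))) (i : Fin (k * (s + m))) :
    i ∈ glue e A B ↔ (∃ a ∈ A, e i = .inl a) ∨ ∃ b ∈ B, e i = .inr b := by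
  simp [glue]

theorem inl_mem_glue {k s m : ℕ} (e : Fin (k * (s + m)) ≃ Fin (k * s) ⊕ Fin (k * m))
    (A : Finset (Fin (k * s))) (B : Finset (Fin (k * m))) (a : Fin (k * s)) :
    e.symm (.inl a) ∈ glue e A B ↔ a ∈ A := by
  simp [mem_glue]

theorem inr_mem_glue {k s m : ℕ} (e : Fin (k * (s + m)) ≃ Fin (k * s) ⊕ Fin (k * m))
    (A : Finset (Fin (k * s))) (B : Finset (Fin (k * m))) (b : Fin (k * m)) :
    e.symm (.inr b) ∈ glue e A B ↔ b ∈ B := by
  simp [mem_glue]

theorem glue_inj {k s m : ℕ} (e : Fin (k * (s + m)) ≃ Fin (k * s) ⊕ Fin (k * m))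
    {A A' : Finset (Fin (k * s))} {B B' : Finset (Fin (k * m))} (h : glue e A B = glue e A' B') :
    A = A' ∧ B = B' := by
  constructor
  · ext a
    rw [← inl_mem_glue e A B, h, inl_mem_glue]
  · ext b
    rw [← inr_mem_glue e A B, h, inr_mem_glue]

theorem S_inj {k m M : ℕ} (P : Puzzle k m M) (hk : 2 ≤ k) {j j' : Fin M} {r r' : Fin k}
    (h : P.S j r = P.S j' r') : j = j' ∧ r = r' := by
  classical
  have hrig := P.rigid (fun a => if a = r then j' else j) (fun a => if a = r then r' else a) (by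
    intro a b hab
    have hS : ∀ a : Fin k, P.S (if a = r then j' else j) (if a = r then r' else a) = P.S j a := by
      intro a
      split_ifs with ha
      · rw [ha, h]
      · rfl
    have h1 := P.disj j a b hab
    rw [← hS a, ← hS b] at h1
    exact h1)
  have : Nontrivial (Fin k) := Fin.nontrivial_iff_two_le.2 hk
  obtain ⟨b, hb⟩ := exists_ne r
  have h1 := (hrig r b).1
  simp only [if_true, if_neg hb] at h1
  refine ⟨h1.symm, ?_⟩
  by_contra hne
  have h2 := (hrig r r').2 hne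
  simp only [if_true, if_neg (fun h => hne h.symm : ¬ r' = r)] at h2
  exact h2 rfl

theorem mem_fam {k s m M : ℕ} (e : Fin (k * (s + m)) ≃ Fin (k * s) ⊕ Fin (k * m))
    (P : Puzzle k m M) (y : Fin M → Set (Atom k (k * s))) (B : Finset (Fin (k * (s + m)))) :
    B ∈ fam e P y ↔ ∃ j r A, (r, A) ∈ y j ∧ B = glue e A (P.S j r) := by
  classical
  simp [fam]

theorem leaf : S_Leaf := by
  intro k s m M e P hk B
  classical
  by_cases hB : ∃ j r A, B = glue e A (P.S j r)
  · obtain ⟨j, r, A, rfl⟩ := hB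
    refine Or.inr ⟨j, (r, A), fun y => ?_⟩
    simp only [indicator, decide_eq_true_eq, mem_fam]
    constructor
    · rintro ⟨j', r', A', h, heq⟩
      obtain ⟨h1, h2⟩ := glue_inj e heq
      obtain ⟨h3, h4⟩ := S_inj P hk h2
      subst h1 h3 h4
      exact h
    · intro h
      exact ⟨j, r, A, h, rfl⟩
  · refine Or.inl ⟨false, fun y => ?_⟩
    simp only [indicator, decide_eq_false_iff_not, mem_fam]
    rintro ⟨j, r, A, _, h⟩
    exact hB ⟨j, r, A, h⟩

end Pool.Agent.T9h18.SK
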