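import Pool.Agent.T9h18.SK.Leaf

set_option autoImplicit false

namespace Pool.Agent.T9h18.SK

open Finset
open Pool.Agent.T9h20.SC
open Pool.Agent.T9h36.SK

theorem glue_eq_map {k s m : ℕ} (e : Fin (k * (s + m)) ≃ Fin (k * s) ⊕ Fin (k * m))
    (A : Finset (Fin (k * s))) (B : Finset (Fin (k * m))) :
    glue e A B = (A.disjSum B).map e.symm.toEmbedding := by
  ext i
  rw [mem_glue, Finset.mem_map_equiv, Equiv.symm_symm, Finset.mem_disjSum]
  constructor
  · rintro (⟨a, ha, h⟩ | ⟨b, hb, h⟩)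
    · exact Or.inl ⟨a, ha, h.symm⟩
    · exact Or.inr ⟨b, hb, h.symm⟩
  · rintro (⟨a, ha, h⟩ | ⟨b, hb, h⟩)
    · exact Or.inl ⟨a, ha, h.symm⟩
    · exact Or.inr ⟨b, hb, h.symm⟩

theorem card_glue {k s m : ℕ} (e : Fin (k * (s + m)) ≃ Fin (k * s) ⊕ Fin (k * m))
    (A : Finset (Fin (k * s))) (B : Finset (Fin (k * m))) :
    (glue e A B).card = A.card + B.card := by
  rw [glue_eq_map, Finset.card_map, Finset.card_disjSum]

theorem mono : S_Mono := by
  intro k s m M e P y y'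
  refine ⟨fun h B hB => ?_, fun h B hB => ?_⟩
  · rw [mem_fam] at hB ⊢
    obtain ⟨j, r, A, h1, h2⟩ := hB
    exact ⟨j, r, A, h j h1, h2⟩
  · rw [mem_fam] at hB
    obtain ⟨j, r, A, h1, rfl⟩ := hB
    rw [card_glue, P.card j r]
    have := h j _ h1
    simp only at this
    rw [this]

end Pool.Agent.T9h18.SK
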