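import Pool.Agent.T9h18.SK.Mono

set_option autoImplicit false

namespace Pool.Agent.T9h18.SK

open Finset
open Pool.Agent.T9h20.SC
open Pool.Agent.T9h36.SK

/-- the sets of one partition of a puzzle cover everything -/
theorem S_cover {k m M : ℕ} (P : Puzzle k m M) (j : Fin M) (b : Fin (k * m)) :
    ∃ c, b ∈ P.S j c := by
  classical
  have h1 : (univ.biUnion (P.S j)).card = k * m := by
    rw [Finset.card_biUnion (fun a _ b _ hab => P.disj j a b hab)]
    simp [P.card]
  have h2 : univ.biUnion (P.S j) = univ := by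
    rw [← Finset.card_eq_iff_eq_univ, h1, Fintype.card_fin]
  have h3 : b ∈ univ.biUnion (P.S j) := by rw [h2]; exact mem_univ _
  obtain ⟨c, _, hc⟩ := Finset.mem_biUnion.1 h3
  exact ⟨c, hc⟩

theorem yes : S_Yes := by
  intro k s m M e P y j π hπ
  classical
  refine ⟨univ.image fun c : Fin k =>
    glue e (univ.filter (fun i => cls k s (π i) = c)) (P.S j c), ?_, ?_, ?_⟩
  · intro B hB
    obtain ⟨c, _, rfl⟩ := Finset.mem_image.1 hB
    rw [mem_fam]
    exact ⟨j, c, _, hπ (by simp [posA]), rfl⟩
  · refine Finset.card_image_le.trans ?_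
    simp
  · intro i
    rcases h : e i with a | b
    · refine ⟨_, Finset.mem_image_of_mem _ (mem_univ (cls k s (π a))), ?_⟩
      rw [mem_glue]
      exact Or.inl ⟨a, by simp, h⟩
    · obtain ⟨c, hc⟩ := S_cover P j b
      refine ⟨_, Finset.mem_image_of_mem _ (mem_univ c), ?_⟩
      rw [mem_glue]
      exact Or.inr ⟨b, hc, h⟩

end Pool.Agent.T9h18.SK
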